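import Pool.Agent.Q282.QF.Core

/-!
# The multiplicities of the eigenvalues
-/

set_option autoImplicit false
set_option linter.unusedSectionVars false

namespace Q282QF

open Finset

/-- Fejer's kernel -/
noncomputable def fj (K : ℕ) (x : ℂ) : ℝ := (K + 1 : ℕ) + 2 * ∑ m ∈ range K, ((K : ℝ) - m) * (x ^ (m + 1)).re

lemma fj_eq (K : ℕ) (x : ℂ) (hx : ‖x‖ = 1) : fj K x = Complex.normSq (∑ j ∈ range (K + 1), x ^ j) := by
  induction K with
  | zero =>
    unfold fj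
    simp
  | succ K ih =>
    rw [sum_range_succ, Complex.normSq_add, ← ih, ]
    have hpow : ∀ k, Complex.normSq (x ^ k) = 1 := by
      intro k
      rw [Complex.normSq_eq_norm_sq, norm_pow, hx, one_pow, one_pow]
    rw [hpow]
    have h1 : ((∑ j ∈ range (K + 1), x ^ j) * (starRingEnd ℂ) (x ^ (K + 1))).re = ∑ m ∈ range (K + 1), (x ^ (m + 1)).re := by
      rw [sum_mul, Complex.re_sum, ← sum_range_reflect]
      refine sum_congr rfl fun m hm => ?_
      rw [mem_range] at hm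
      have h2 : K + 1 - 1 - m = K - m := by omega
      rw [h2]
      have h3 : x ^ (K - m) * (starRingEnd ℂ) (x ^ (K + 1)) = (starRingEnd ℂ) (x ^ (m + 1)) := by
        have h4 : x ^ (K + 1) = x ^ (K - m) * x ^ (m + 1) := by
          rw [← pow_add]
          congr 1
          omega
        rw [h4, map_mul, ← mul_assoc, Complex.mul_conj, hpow, Complex.ofReal_one, one_mul]
      rw [h3, Complex.conj_re]
    rw [h1]
    unfold fj
    have h5 : ∑ m ∈ range (K + 1), (((K + 1 : ℕ) : ℝ) - m) * (x ^ (m + 1)).re =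
        ∑ m ∈ range K, ((K : ℝ) - m) * (x ^ (m + 1)).re + ∑ m ∈ range (K + 1), (x ^ (m + 1)).re := by
      have h6 : ∑ m ∈ range K, ((K : ℝ) - m) * (x ^ (m + 1)).re = ∑ m ∈ range (K + 1), ((K : ℝ) - m) * (x ^ (m + 1)).re := by
        rw [sum_range_succ, sub_self, zero_mul, add_zero]
      rw [h6, ← sum_add_distrib]
      refine sum_congr rfl fun m _ => ?_
      push_cast
      ring
    rw [h5]
    push_cast
    ring

lemma fj_nonneg (K : ℕ) (x : ℂ) (hx : ‖x‖ = 1) : 0 ≤ fj K x := by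
  rw [fj_eq K x hx]
  exact Complex.normSq_nonneg _

lemma fj_one (K : ℕ) : fj K 1 = ((K + 1 : ℕ) : ℝ) ^ 2 := by
  rw [fj_eq K 1 (by simp)]
  simp only [one_pow, sum_const, card_range, nsmul_eq_mul, mul_one]
  rw [Complex.normSq_natCast]
  ring

lemma count_le (α : Multiset ℂ) (h : ℂ → ℝ) (hh : ∀ a ∈ α, 0 ≤ h a) (β : ℂ) :
    (α.count β : ℝ) * h β ≤ (α.map h).sum := by
  classical
  induction α using Multiset.induction_on with
  | empty => simp
  | cons a s ih =>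
    have h1 := ih fun a' ha' => hh a' (Multiset.mem_cons_of_mem ha')
    have h2 := hh a (Multiset.mem_cons_self a s)
    rw [Multiset.map_cons, Multiset.sum_cons, Multiset.count_cons]
    split_ifs with h3
    · push_cast
      subst h3
      linarith
    · rw [add_zero]
      linarith

lemma sum_fj (α : Multiset ℂ) (K : ℕ) (β : ℂ) :
    (α.map fun a => fj K (a / β)).sum = (K + 1 : ℕ) * (Multiset.card α : ℝ) +
      2 * ∑ m ∈ range K, ((K : ℝ) - m) * ((α.map fun a => a ^ (m + 1)).sum / β ^ (m + 1)).re := by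
  induction α using Multiset.induction_on with
  | empty => simp
  | cons a s ih =>
    rw [Multiset.map_cons, Multiset.sum_cons, ih, Multiset.card_cons]
    simp only [Multiset.map_cons, Multiset.sum_cons, add_div, Complex.add_re, mul_add, sum_add_distrib, ← div_pow]
    unfold fj
    push_cast
    ring

/-- **The multiplicity of an eigenvalue.** -/
theorem mult_le (α : Multiset ℂ) (R : ℝ) (hR : 0 < R) (hα : ∀ a ∈ α, ‖a‖ = R) (β : ℂ) (K : ℕ) :
    ((K + 1 : ℕ) : ℝ) ^ 2 * (α.count β : ℝ) ≤ (K + 1 : ℕ) * (Multiset.card α : ℝ) +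
      2 * ∑ m ∈ range K, ((K : ℝ) - m) * (‖(α.map fun a => a ^ (m + 1)).sum‖ / R ^ (m + 1)) := by
  classical
  have hsum : (0 : ℝ) ≤ ∑ m ∈ range K, ((K : ℝ) - m) * (‖(α.map fun a => a ^ (m + 1)).sum‖ / R ^ (m + 1)) := by
    refine sum_nonneg fun m hm => ?_
    rw [mem_range] at hm
    have : (m : ℝ) ≤ K := by exact_mod_cast hm.le
    exact mul_nonneg (by linarith) (by positivity)
  by_cases hβ : β ∈ α
  · have hb := hα β hβ
    have hβ0 : β ≠ 0 := by
      rintro rfl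
      rw [norm_zero] at hb
      linarith
    have h1 := count_le α (fun a => fj K (a / β)) (fun a ha => fj_nonneg K _ (by rw [norm_div, hα a ha, hb, div_self hR.ne'])) β
    rw [div_self hβ0, fj_one, sum_fj] at h1
    rw [mul_comm]
    refine h1.trans ?_
    refine add_le_add le_rfl (mul_le_mul_of_nonneg_left ?_ (by norm_num))
    refine sum_le_sum fun m hm => ?_
    rw [mem_range] at hm
    have : (m : ℝ) ≤ K := by exact_mod_cast hm.le
    refine mul_le_mul_of_nonneg_left ?_ (by linarith)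
    refine (Complex.re_le_norm _).trans (le_of_eq ?_)
    rw [norm_div, norm_pow, hb]
  · rw [Multiset.count_eq_zero_of_notMem hβ]
    simp only [Nat.cast_zero, mul_zero]
    positivity

variable {F : Type} [Field F] [Fintype F]

/-- the weighted sum of the power sums -/
lemma cs (D : ℕ) (α : Multiset ℂ) (K : ℕ) (B : ℝ) (hB : 0 ≤ B)
    (h : ∑ m ∈ range K, pw F D α (m + 1) ^ 2 / (m + 1 : ℕ) ≤ B * K) :
    ∑ m ∈ range K, ((K : ℝ) - m) * pw F D α (m + 1) ≤ Real.sqrt (B / 2) * K * ((K + 1 : ℕ) : ℝ) * Real.sqrt (K + 1 : ℕ) := by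
  have hq1 : (1 : ℝ) < Fintype.card F := by exact_mod_cast Fintype.one_lt_card
  have hpw : ∀ m, 0 ≤ pw F D α m := fun m => by unfold pw; positivity
  have hcs := sum_mul_sq_le_sq_mul_sq (range K) (fun m => ((K : ℝ) - m) * Real.sqrt (m + 1 : ℕ)) (fun m => pw F D α (m + 1) / Real.sqrt (m + 1 : ℕ))
  have hs : ∀ m : ℕ, 0 < Real.sqrt ((m + 1 : ℕ) : ℝ) := fun m => Real.sqrt_pos.2 (by positivity)
  have e1 : ∑ m ∈ range K, ((K : ℝ) - m) * Real.sqrt (m + 1 : ℕ) * (pw F D α (m + 1) / Real.sqrt (m + 1 : ℕ)) =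
      ∑ m ∈ range K, ((K : ℝ) - m) * pw F D α (m + 1) := by
    refine sum_congr rfl fun m _ => ?_
    have := hs m
    field_simp
  have e2 : ∑ m ∈ range K, (((K : ℝ) - m) * Real.sqrt (m + 1 : ℕ)) ^ 2 ≤ (K : ℝ) ^ 2 * (K * (K + 1 : ℕ) / 2) := by
    have h1 : ∀ m ∈ range K, (((K : ℝ) - m) * Real.sqrt (m + 1 : ℕ)) ^ 2 ≤ (K : ℝ) ^ 2 * (m + 1 : ℕ) := by
      intro m hm
      rw [mem_range] at hm
      have h2 : (m : ℝ) ≤ K := by exact_mod_cast hm.le
      rw [mul_pow, Real.sq_sqrt (by positivity)]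
      refine mul_le_mul_of_nonneg_right ?_ (by positivity)
      have h3 : (0 : ℝ) ≤ m := Nat.cast_nonneg m
      nlinarith
    refine (sum_le_sum h1).trans (le_of_eq ?_)
    rw [← mul_sum]
    congr 1
    have h4 : ∀ K : ℕ, ∑ m ∈ range K, ((m + 1 : ℕ) : ℝ) = K * (K + 1 : ℕ) / 2 := by
      intro K
      induction K with
      | zero => simp
      | succ K ih =>
        rw [sum_range_succ, ih]
        push_cast
        ring
    exact h4 K
  have e3 : ∑ m ∈ range K, (pw F D α (m + 1) / Real.sqrt (m + 1 : ℕ)) ^ 2 ≤ B * K := by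
    refine le_trans (le_of_eq ?_) h
    refine sum_congr rfl fun m _ => ?_
    rw [div_pow, Real.sq_sqrt (by positivity)]
  rw [e1] at hcs
  refine abs_le_of_sq_le_sq' ?_ ?_ |>.2
  · refine hcs.trans ?_
    have h5 : ∑ m ∈ range K, (((K : ℝ) - m) * Real.sqrt (m + 1 : ℕ)) ^ 2 * 1 ≤ (K : ℝ) ^ 2 * (K * (K + 1 : ℕ) / 2) := by
      simpa using e2
    calc (∑ m ∈ range K, (((K : ℝ) - m) * Real.sqrt (m + 1 : ℕ)) ^ 2) * ∑ m ∈ range K, (pw F D α (m + 1) / Real.sqrt (m + 1 : ℕ)) ^ 2 ≤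
        ((K : ℝ) ^ 2 * (K * (K + 1 : ℕ) / 2)) * (B * K) := mul_le_mul e2 e3 (sum_nonneg fun m _ => sq_nonneg _) (by positivity)
      _ ≤ (Real.sqrt (B / 2) * K * ((K + 1 : ℕ) : ℝ) * Real.sqrt (K + 1 : ℕ)) ^ 2 := by
        rw [mul_pow, mul_pow, mul_pow, Real.sq_sqrt (by positivity), Real.sq_sqrt (by positivity)]
        have h6 : ((K : ℝ) ^ 2 * (K * (K + 1 : ℕ) / 2)) * (B * K) = B / 2 * K ^ 2 * (((K + 1 : ℕ) : ℝ)) * K ^ 2 := by ring
        rw [h6]
        have h7 : (K : ℝ) ^ 2 ≤ ((K + 1 : ℕ) : ℝ) ^ 2 := by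
          push_cast
          nlinarith [(Nat.cast_nonneg K : (0 : ℝ) ≤ K)]
        have h8 : B / 2 * K ^ 2 * ((K + 1 : ℕ) : ℝ) * K ^ 2 ≤ B / 2 * K ^ 2 * ((K + 1 : ℕ) : ℝ) * ((K + 1 : ℕ) : ℝ) ^ 2 :=
          mul_le_mul_of_nonneg_left h7 (by positivity)
        refine h8.trans (le_of_eq ?_)
        ring
  · positivity

/-- **The multiplicities of all eigenvalues.** -/
theorem mult_bound (D : ℕ) (α : Multiset ℂ) (hα : ∀ a ∈ α, ‖a‖ = Real.sqrt (Fintype.card F) ^ D) (K : ℕ) (hK : 1 ≤ K) (C₀ lam : ℝ) (hC₀ : 0 ≤ C₀)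
    (hlam : 0 ≤ lam) (h : ∑ m ∈ range K, pw F D α (m + 1) ^ 2 / (m + 1 : ℕ) ≤ 12 * C₀ ^ 2 * K * lam ^ 2) (β : ℂ) :
    (α.count β : ℝ) ≤ Multiset.card α / ((K + 1 : ℕ) : ℝ) + 5 * C₀ * lam * Real.sqrt (K + 1 : ℕ) := by
  have hq1 : (1 : ℝ) < Fintype.card F := by exact_mod_cast Fintype.one_lt_card
  have hR : (0 : ℝ) < Real.sqrt (Fintype.card F) ^ D := by positivity
  have h1 := mult_le α _ hR hα β K
  have h2 : ∑ m ∈ range K, ((K : ℝ) - m) * (‖(α.map fun a => a ^ (m + 1)).sum‖ / (Real.sqrt (Fintype.card F) ^ D) ^ (m + 1)) =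
      ∑ m ∈ range K, ((K : ℝ) - m) * pw F D α (m + 1) := by
    refine sum_congr rfl fun m _ => ?_
    unfold pw
    rw [← pow_mul]
  rw [h2] at h1
  have h3 := cs (F := F) D α K (12 * C₀ ^ 2 * lam ^ 2) (by positivity) (by linarith)
  have h4 : Real.sqrt (12 * C₀ ^ 2 * lam ^ 2 / 2) ≤ 5 / 2 * (C₀ * lam) := by
    rw [Real.sqrt_le_left (by positivity)]
    nlinarith [sq_nonneg (C₀ * lam)]
  have hK1 : (0 : ℝ) < ((K + 1 : ℕ) : ℝ) := by positivity
  have hKK : (K : ℝ) ≤ ((K + 1 : ℕ) : ℝ) := by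
    push_cast
    linarith
  obtain ⟨M, hM⟩ : ∃ M : ℝ, M = ((K + 1 : ℕ) : ℝ) := ⟨_, rfl⟩
  rw [← hM] at h1 h3 hK1 hKK ⊢
  have h5 : Real.sqrt (12 * C₀ ^ 2 * lam ^ 2 / 2) * K * M * Real.sqrt M ≤ 5 / 2 * (C₀ * lam) * M * M * Real.sqrt M := by
    have h6 : Real.sqrt (12 * C₀ ^ 2 * lam ^ 2 / 2) * K ≤ 5 / 2 * (C₀ * lam) * M :=
      mul_le_mul h4 hKK (Nat.cast_nonneg K) (by positivity)
    exact mul_le_mul_of_nonneg_right (mul_le_mul_of_nonneg_right h6 hK1.le) (Real.sqrt_nonneg _)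
  have h7 : M ^ 2 * (α.count β : ℝ) ≤ M * Multiset.card α + 5 * C₀ * lam * M ^ 2 * Real.sqrt M := by
    refine h1.trans ?_
    have h8 := h3.trans h5
    linarith
  have h9 : M ^ 2 * (Multiset.card α / M + 5 * C₀ * lam * Real.sqrt M) = M * Multiset.card α + 5 * C₀ * lam * M ^ 2 * Real.sqrt M := by
    field_simp
  rw [← h9] at h7
  exact le_of_mul_le_mul_left h7 (by positivity)

end Q282QF
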