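import Pool.Agent.Q282.QF.Prob

/-!
# Random sections over a finite field: the expected number of points
-/

set_option autoImplicit false
set_option linter.unusedSectionVars false

namespace Q282QF

open Finset MvPolynomial
open scoped LinearAlgebra.Projectivization

section

variable {F : Type} [Field F] [Fintype F] {n : ℕ}

/-- the number of the points over `E` of the closed subscheme with the equations `G` -/
noncomputable def npts (G : Set (MvPolynomial (Fin (n + 1)) F)) (E : Type) [Field E] [Algebra F E] : ℕ :=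
  Nat.card {P : ℙ E (Fin (n + 1) → E) // ∀ g ∈ G, aeval P.rep g = 0}

lemma exists_ext (e : ℕ) (he : 1 ≤ e) : ∃ (E' : Type) (_ : Field E') (_ : Fintype E') (_ : Algebra F E'), Module.finrank F E' = e := by
  obtain ⟨p, hp⟩ := CharP.exists F
  have hpr : Fact p.Prime := ⟨CharP.char_is_prime F p⟩
  have : NeZero e := ⟨by omega⟩
  exact ⟨FiniteField.Extension F p e, inferInstance, Fintype.ofFinite _, inferInstance, FiniteField.finrank_extension F p e⟩

variable {E : Type} [Field E] [Fintype E] [Algebra F E]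

lemma card_ext : Fintype.card E = Fintype.card F ^ Module.finrank F E := by
  have : Module.Finite F E := Module.Finite.of_finite
  exact Module.card_eq_pow_finrank

/-- the elements fixed by a power of Frobenius come from the subfield -/
lemma exists_preimage {E' : Type} [Field E'] [Fintype E'] [Algebra F E'] (j : E' →ₐ[F] E) (w : E)
    (hw : w ^ (Fintype.card F ^ Module.finrank F E') = w) : ∃ z : E', j z = w := by
  classical
  have hinj : Function.Injective j := j.toRingHom.injective
  have hpos : 0 < Module.finrank F E' := finrank_pos' F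
  have hq : 1 < Fintype.card F ^ Module.finrank F E' := Nat.one_lt_pow hpos.ne' Fintype.one_lt_card
  obtain ⟨T, hT⟩ : ∃ T : Finset E, T = univ.filter fun w : E => w ^ (Fintype.card F ^ Module.finrank F E') = w := ⟨_, rfl⟩
  have h1 : T.card ≤ Fintype.card F ^ Module.finrank F E' := by
    have h2 := card_roots_le (E := E) _ hq
    rw [Nat.card_eq_fintype_card, Fintype.card_subtype, ← hT] at h2
    exact h2
  have h2 : (univ.image j : Finset E) ⊆ T := by
    intro v hv
    rw [mem_image] at hv
    obtain ⟨z, _, rfl⟩ := hv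
    rw [hT, mem_filter]
    refine ⟨mem_univ _, ?_⟩
    rw [← map_pow, ← card_ext (F := F) (E := E'), FiniteField.pow_card]
  have h3 : (univ.image j : Finset E).card = Fintype.card F ^ Module.finrank F E' := by
    rw [card_image_of_injective _ hinj, card_univ, card_ext (F := F) (E := E')]
  have h4 : (univ.image j : Finset E) = T := eq_of_subset_of_card_le h2 (by rw [h3]; exact h1)
  have h5 : w ∈ (univ.image j : Finset E) := by
    rw [h4, hT, mem_filter]
    exact ⟨mem_univ _, hw⟩
  rw [mem_image] at h5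
  obtain ⟨z, _, hz⟩ := h5
  exact ⟨z, hz⟩

lemma fixed_le (G : Set (MvPolynomial (Fin (n + 1)) F)) (hG : ∀ g ∈ G, ∃ k, g.IsHomogeneous k) {E' : Type} [Field E'] [Fintype E']
    [Algebra F E'] (hdvd : Module.finrank F E' ∣ Module.finrank F E) :
    Nat.card {P : ℙ E (Fin (n + 1) → E) // (∀ g ∈ G, aeval P.rep g = 0) ∧ (Phi F)^[Module.finrank F E'] P = P} ≤ npts G E' := by
  classical
  obtain ⟨j⟩ : Nonempty (E' →ₐ[F] E) := FiniteField.nonempty_algHom_of_finrank_dvd hdvd
  have hinj : Function.Injective j := j.toRingHom.injective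
  have key : ∀ P : {P : ℙ E (Fin (n + 1) → E) // (∀ g ∈ G, aeval P.rep g = 0) ∧ (Phi F)^[Module.finrank F E'] P = P},
      ∃ (z : Fin (n + 1) → E') (c : E), z ≠ 0 ∧ c ≠ 0 ∧ P.1.rep = c • fun k => j (z k) := by
    intro P
    obtain ⟨c, y, hc, hy, hfix⟩ := exists_fixed (F := F) P.1 _ P.2.2
    have h1 : ∀ k, ∃ z : E', j z = y k := fun k => exists_preimage j (y k) (congrFun hfix k)
    choose z hz using h1
    have h2 : y = fun k => j (z k) := funext fun k => (hz k).symm
    refine ⟨z, c, ?_, hc, by rw [← h2]; exact hy⟩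
    rintro rfl
    apply P.1.rep_nonzero
    rw [hy, h2]
    funext k
    simp
  choose z c hz hc hP using key
  unfold npts
  refine Nat.card_le_card_of_injective (fun P => ⟨Projectivization.mk E' (z P) (hz P), fun g hg => ?_⟩) ?_
  · obtain ⟨k, hk⟩ := hG g hg
    obtain ⟨a, ha⟩ := Projectivization.exists_smul_eq_mk_rep E' (z P) (hz P)
    rw [← ha, Units.smul_def, aeval_smul' F hk]
    have h1 := P.2.1 g hg
    rw [hP P, aeval_smul' F hk, ← comp_aeval_apply] at h1
    have h2 : j (aeval (z P) g) = 0 := (mul_eq_zero.1 h1).resolve_left (pow_ne_zero _ (hc P))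
    rw [← map_zero j] at h2
    rw [hinj h2, mul_zero]
  · intro P R h
    have h1 := congrArg Subtype.val h
    simp only at h1
    rw [Projectivization.mk_eq_mk_iff'] at h1
    obtain ⟨a, ha⟩ := h1
    apply Subtype.ext
    rw [← P.1.mk_rep, ← R.1.mk_rep, Projectivization.mk_eq_mk_iff']
    refine ⟨c P * j a * (c R)⁻¹, ?_⟩
    rw [hP P, hP R, smul_smul, mul_assoc, inv_mul_cancel₀ (hc R), mul_one, mul_smul]
    congr 1
    funext k
    rw [← ha, Pi.smul_apply, Pi.smul_apply, smul_eq_mul, smul_eq_mul, map_mul]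

/-- the points of the subscheme -/
noncomputable def zset (G : Set (MvPolynomial (Fin (n + 1)) F)) (E : Type) [Field E] [Fintype E] [Algebra F E] :
    Finset (ℙ E (Fin (n + 1) → E)) := open Classical in
  haveI : Fintype (ℙ E (Fin (n + 1) → E)) := Fintype.ofFinite _
  univ.filter fun P => ∀ g ∈ G, aeval P.rep g = 0

lemma mem_zset (G : Set (MvPolynomial (Fin (n + 1)) F)) (P : ℙ E (Fin (n + 1) → E)) : P ∈ zset G E ↔ ∀ g ∈ G, aeval P.rep g = 0 := by
  classical
  unfold zset
  rw [mem_filter]
  exact ⟨fun h => h.2, fun h => ⟨mem_univ _, h⟩⟩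

lemma card_zset (G : Set (MvPolynomial (Fin (n + 1)) F)) : (zset G E).card = npts G E := by
  classical
  unfold npts
  rw [← Nat.card_eq_finsetCard]
  exact Nat.card_congr (Equiv.subtypeEquivRight fun P => mem_zset G P)

lemma geom_le (Q : ℝ) (hQ : 2 ≤ Q) (k : ℕ) : ∑ e ∈ range (k + 1), Q ^ e ≤ 2 * Q ^ k := by
  induction k with
  | zero => simp
  | succ k ih =>
    rw [sum_range_succ]
    have h1 : Q ^ (k + 1) = Q ^ k * Q := pow_succ _ _
    have h2 : 0 < Q ^ k := by positivity
    nlinarith

/-- **The expected number of points.** -/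
theorem mn_near (G : Set (MvPolynomial (Fin (n + 1)) F)) (hG : ∀ g ∈ G, ∃ k, g.IsHomogeneous k) (D r : ℕ) (hD : 1 ≤ D) (C₀ : ℝ)
    (hC₀ : 0 ≤ C₀) (hW : ∀ (E' : Type) [Field E'] [Fintype E'] [Algebra F E'], (npts G E' : ℝ) ≤ C₀ * (Fintype.card E' : ℝ) ^ (D + r)) :
    |mn F r (zset G E) - npts G E / (Fintype.card E : ℝ) ^ r| ≤ 2 * C₀ * Real.sqrt (Fintype.card E) ^ D := by
  classical
  obtain ⟨m, hm⟩ : ∃ m, m = Module.finrank F E := ⟨_, rfl⟩
  obtain ⟨q, hq⟩ : ∃ q : ℝ, q = Fintype.card F := ⟨_, rfl⟩
  have hq2 : 2 ≤ q := by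
    rw [hq]
    exact_mod_cast Fintype.one_lt_card
  have hq0 : 0 < q := by linarith
  have hqr : ∀ e : ℕ, 0 < (q ^ r) ^ e := fun e => by positivity
  have hcE : (Fintype.card E : ℝ) = q ^ m := by
    rw [card_ext (F := F) (E := E), hq, hm]
    push_cast
    rfl
  have hterm : ∀ P ∈ zset G E, |1 / (q ^ r) ^ dg F P - 1 / (q ^ r) ^ m| ≤ if dg F P < m then 1 / (q ^ r) ^ dg F P else 0 := by
    intro P _
    have h1 := dg_le F P
    rw [← hm] at h1
    split_ifs with h
    · have h2 : 1 / (q ^ r) ^ m ≤ 1 / (q ^ r) ^ dg F P := by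
        refine one_div_le_one_div_of_le (hqr _) (pow_le_pow_right₀ (one_le_pow₀ (by linarith)) h1)
      have h3 : 0 < 1 / (q ^ r) ^ m := one_div_pos.2 (hqr _)
      rw [abs_of_nonneg (by linarith)]
      linarith
    · have h2 : dg F P = m := by omega
      rw [h2, sub_self, abs_zero]
  have hleft : |mn F r (zset G E) - npts G E / (Fintype.card E : ℝ) ^ r| ≤ ∑ P ∈ zset G E, if dg F P < m then 1 / (q ^ r) ^ dg F P else 0 := by
    have h1 : (npts G E : ℝ) / (Fintype.card E : ℝ) ^ r = ∑ P ∈ zset G E, 1 / (q ^ r) ^ m := by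
      rw [sum_const, card_zset, nsmul_eq_mul, hcE, ← pow_mul, ← pow_mul, mul_comm m r]
      ring
    rw [h1]
    unfold mn
    rw [← hq, ← sum_sub_distrib]
    exact (abs_sum_le_sum_abs _ _).trans (sum_le_sum hterm)
  refine hleft.trans ?_
  rw [← sum_filter]
  -- by degrees
  have hmpos : 0 < m := by
    rw [hm]
    exact finrank_pos' F
  have hmaps : ∀ P ∈ (zset G E).filter (fun P => dg F P < m), dg F P ∈ range (m / 2 + 1) := by
    intro P hP
    rw [mem_filter] at hP
    rw [mem_range]
    have h1 := dg_dvd F P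
    rw [← hm] at h1
    obtain ⟨c, hc⟩ := h1
    have h2 : 2 ≤ c := by
      by_contra h0
      have : c = 0 ∨ c = 1 := by omega
      rcases this with rfl | rfl <;> omega
    have h3 : dg F P * 2 ≤ m := by
      rw [hc]
      exact Nat.mul_le_mul_left _ h2
    omega
  rw [← sum_fiberwise_of_maps_to hmaps]
  have hfib : ∀ e ∈ range (m / 2 + 1), ∑ P ∈ ((zset G E).filter (fun P => dg F P < m)).filter (fun P => dg F P = e), 1 / (q ^ r) ^ dg F P ≤
      C₀ * (q ^ D) ^ e := by
    intro e _
    have h1 : ∑ P ∈ ((zset G E).filter (fun P => dg F P < m)).filter (fun P => dg F P = e), 1 / (q ^ r) ^ dg F P =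
        (((zset G E).filter (fun P => dg F P < m)).filter (fun P => dg F P = e)).card * (1 / (q ^ r) ^ e) := by
      rw [← nsmul_eq_mul, ← sum_const]
      refine sum_congr rfl fun P hP => ?_
      rw [(mem_filter.1 hP).2]
    rw [h1]
    by_cases hne : (((zset G E).filter (fun P => dg F P < m)).filter (fun P => dg F P = e)).Nonempty
    · obtain ⟨P₀, hP₀⟩ := hne
      have hP1 := mem_filter.1 hP₀
      have he1 : 1 ≤ e := by
        rw [← hP1.2]
        exact dg_pos F P₀
      have hed : e ∣ m := by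
        rw [← hP1.2, hm]
        exact dg_dvd F P₀
      obtain ⟨E', _, _, _, hE'⟩ := exists_ext (F := F) e he1
      have h2 : (((zset G E).filter (fun P => dg F P < m)).filter (fun P => dg F P = e)).card ≤ npts G E' := by
        refine le_trans ?_ (fixed_le (E := E) G hG (E' := E') (by rw [hE', ← hm]; exact hed))
        rw [← Nat.card_eq_finsetCard]
        refine Nat.card_le_card_of_injective (fun P => ⟨P.1, ?_, ?_⟩) ?_
        · exact (mem_zset G P.1).1 (mem_filter.1 (mem_filter.1 P.2).1).1
        · have h3 := (mem_filter.1 P.2).2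
          have h6 := Phi_dg F P.1
          rw [h3] at h6
          rw [hE']
          exact h6
        · intro P R h
          have h7 := congrArg Subtype.val h
          exact Subtype.ext h7
      have h3 := hW E'
      have h4 : (Fintype.card E' : ℝ) = q ^ e := by
        rw [card_ext (F := F) (E := E'), hE', hq]
        push_cast
        rfl
      rw [h4] at h3
      have h5 : ((((zset G E).filter (fun P => dg F P < m)).filter (fun P => dg F P = e)).card : ℝ) ≤ C₀ * (q ^ e) ^ (D + r) :=
        le_trans (by exact_mod_cast h2) h3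
      rw [mul_one_div, div_le_iff₀ (hqr e)]
      refine h5.trans (le_of_eq ?_)
      rw [← pow_mul, ← pow_mul, ← pow_mul, mul_assoc, ← pow_add]
      congr 2
      ring
    · rw [not_nonempty_iff_eq_empty.1 hne, card_empty, Nat.cast_zero, zero_mul]
      positivity
  refine (sum_le_sum hfib).trans ?_
  rw [← mul_sum]
  have hQ : 2 ≤ q ^ D := hq2.trans (by
    calc q = q ^ 1 := (pow_one q).symm
      _ ≤ q ^ D := pow_le_pow_right₀ (by linarith) hD)
  have h1 := geom_le (q ^ D) hQ (m / 2)
  have h2 : (q ^ D) ^ (m / 2) ≤ Real.sqrt (Fintype.card E) ^ D := by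
    rw [hcE]
    have hs0 : 0 ≤ Real.sqrt (q ^ m) := Real.sqrt_nonneg _
    rw [← pow_mul, mul_comm D (m / 2), pow_mul]
    refine pow_le_pow_left₀ (by positivity) ?_ D
    refine Real.le_sqrt_of_sq_le ?_
    rw [← pow_mul]
    exact pow_le_pow_right₀ (by linarith) (by omega)
  calc C₀ * ∑ e ∈ range (m / 2 + 1), (q ^ D) ^ e ≤ C₀ * (2 * (q ^ D) ^ (m / 2)) := mul_le_mul_of_nonneg_left h1 hC₀
    _ ≤ C₀ * (2 * Real.sqrt (Fintype.card E) ^ D) := mul_le_mul_of_nonneg_left (by linarith) hC₀
    _ = _ := by ring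

end

end Q282QF
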