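import Pool.Agent.Q282.QF.Cnt

/-!
# Random sections over a finite field: the power sums of the eigenvalues of Frobenius
-/

set_option autoImplicit false
set_option linter.unusedSectionVars false

namespace Q282QF

open Finset MvPolynomial
open scoped LinearAlgebra.Projectivization
open Q282GP (av av_add av_sub av_smul av_sum av_const av_nonneg av_mono)

section

variable {F : Type} [Field F] [Fintype F] {n : ℕ} {A : Type} [Fintype A] [DecidableEq A] {d : A → ℕ}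

/-- the equations of a member -/
def eqs (G : Set (MvPolynomial (Fin (n + 1)) F)) (f : Fam F n d) : Set (MvPolynomial (Fin (n + 1)) F) := G ∪ Set.range fun a => (f a).1

lemma cnt_eq (G : Set (MvPolynomial (Fin (n + 1)) F)) (f : Fam F n d) (E : Type) [Field E] [Fintype E] [Algebra F E] :
    cnt (zset G E) f = npts (eqs G f) E := by
  classical
  unfold cnt
  rw [sum_boole]
  congr 1
  rw [← card_zset]
  congr 1
  ext P
  rw [mem_filter, mem_zset, mem_zset]
  unfold eqs On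
  constructor
  · rintro ⟨h1, h2⟩ g (hg | ⟨a, rfl⟩)
    · exact h1 g hg
    · exact h2 a
  · intro h
    exact ⟨fun g hg => h g (Or.inl hg), fun a => h _ (Or.inr ⟨a, rfl⟩)⟩

/-- **The variance of the number of points.** -/
theorem var_pts (G : Set (MvPolynomial (Fin (n + 1)) F)) (hG : ∀ g ∈ G, ∃ k, g.IsHomogeneous k) (D r : ℕ) (hD : 1 ≤ D)
    (hA : Fintype.card A = r) (C₀ : ℝ) (hC₀ : 1 ≤ C₀)
    (hW : ∀ (E' : Type) [Field E'] [Fintype E'] [Algebra F E'], (npts G E' : ℝ) ≤ C₀ * (Fintype.card E' : ℝ) ^ (D + r))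
    (E : Type) [Field E] [Fintype E] [Algebra F E] (hd : ∀ a, 2 * Module.finrank F E ≤ d a + 1) (g : ℝ)
    (hg : |g - npts G E / (Fintype.card E : ℝ) ^ r| ≤ C₀ * Real.sqrt (Fintype.card E) ^ D) :
    av (fun f : Fam F n d => ((npts (eqs G f) E : ℝ) - g) ^ 2) ≤ 12 * C₀ ^ 2 * Module.finrank F E * (Fintype.card E : ℝ) ^ D := by
  have h1 : (fun f : Fam F n d => ((npts (eqs G f) E : ℝ) - g) ^ 2) = fun f => (cnt (zset G E) f - g) ^ 2 := by
    funext f
    rw [cnt_eq]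
  rw [h1]
  refine (av_dev (zset G E) hd g).trans ?_
  rw [hA]
  have hm : (1 : ℝ) ≤ Module.finrank F E := by exact_mod_cast finrank_pos' F (E := E)
  have hE : (1 : ℝ) ≤ Fintype.card E := by exact_mod_cast Fintype.card_pos
  have hE0 : (0 : ℝ) < Fintype.card E := by linarith
  obtain ⟨s, hs⟩ : ∃ s, s = Real.sqrt (Fintype.card E) ^ D := ⟨_, rfl⟩
  have hs2 : s ^ 2 = (Fintype.card E : ℝ) ^ D := by
    rw [hs, ← pow_mul, mul_comm D 2, pow_mul, Real.sq_sqrt hE0.le]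
  have hs1 : 1 ≤ s := by
    rw [hs]
    exact one_le_pow₀ (Real.one_le_sqrt.2 hE)
  have h2 := mn_near (E := E) G hG D r hD C₀ (by linarith) hW
  rw [← hs] at h2 hg
  obtain ⟨M, hM⟩ : ∃ M, M = mn F r (zset G E) := ⟨_, rfl⟩
  obtain ⟨N, hN⟩ : ∃ N : ℝ, N = npts G E / (Fintype.card E : ℝ) ^ r := ⟨_, rfl⟩
  rw [← hM, ← hN] at h2
  rw [← hN] at hg
  rw [← hM, ← hs2]
  have hM0 : 0 ≤ M := by
    rw [hM]
    exact mn_nonneg r _
  have hN1 : N ≤ C₀ * s ^ 2 := by
    rw [hN, div_le_iff₀ (by positivity), hs2, mul_assoc, ← pow_add]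
    exact hW E
  have h3 : |M - g| ≤ 3 * C₀ * s := by
    have h4 : M - g = (M - N) - (g - N) := by ring
    rw [h4]
    refine (abs_sub _ _).trans ?_
    linarith
  have h5 : (M - g) ^ 2 ≤ (3 * C₀ * s) ^ 2 := by
    rw [← sq_abs]
    exact pow_le_pow_left₀ (abs_nonneg _) h3 2
  have h6 : M ≤ 3 * C₀ * s ^ 2 := by
    have h7 := (abs_le.1 h2).2
    have h8 : C₀ * s ≤ C₀ * s ^ 2 := mul_le_mul_of_nonneg_left (by nlinarith) (by linarith)
    linarith
  have h9 : 9 * C₀ ^ 2 * s ^ 2 ≤ 9 * C₀ ^ 2 * s ^ 2 * Module.finrank F E := le_mul_of_one_le_right (by positivity) hm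
  have h10 : (Module.finrank F E : ℝ) * M ≤ Module.finrank F E * (3 * C₀ ^ 2 * s ^ 2) := by
    refine mul_le_mul_of_nonneg_left (h6.trans ?_) (by linarith)
    have : C₀ * s ^ 2 ≤ C₀ ^ 2 * s ^ 2 := mul_le_mul_of_nonneg_right (by nlinarith) (by positivity)
    linarith
  nlinarith

/-- the trace formula for a member, `g` being the contribution of the other degrees -/
def Tr (G : Set (MvPolynomial (Fin (n + 1)) F)) (D : ℕ) (g : ℕ → ℝ) (f : Fam F n d) (α : Multiset ℂ) : Prop :=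
  ∀ (E : Type) [Field E] [Fintype E] [Algebra F E],
    (npts (eqs G f) E : ℂ) = (g (Module.finrank F E) : ℂ) + (-1) ^ D * (α.map fun a => a ^ Module.finrank F E).sum

/-- the normalised power sums -/
noncomputable def pw (F : Type) [Fintype F] (D : ℕ) (α : Multiset ℂ) (m : ℕ) : ℝ :=
  ‖(α.map fun a => a ^ m).sum‖ / Real.sqrt (Fintype.card F) ^ (D * m)

lemma markov {Γ : Type} [Fintype Γ] [Nonempty Γ] (Z : Γ → ℝ) (hZ : ∀ f, 0 ≤ Z f) (B : ℝ) (hB : 0 < B) (h : av Z ≤ B) (lam : ℝ) (hlam : 0 < lam)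
    (P : Γ → Prop) [DecidablePred P] (hP : ∀ f, P f → B * lam ^ 2 < Z f) :
    ((univ.filter P).card : ℝ) ≤ 1 / lam ^ 2 * Fintype.card Γ := by
  have hc : (0 : ℝ) < Fintype.card Γ := by exact_mod_cast Fintype.card_pos
  have h1 : ((univ.filter P).card : ℝ) * (B * lam ^ 2) ≤ ∑ f, Z f := by
    calc ((univ.filter P).card : ℝ) * (B * lam ^ 2) = ∑ f ∈ univ.filter P, B * lam ^ 2 := by rw [sum_const, nsmul_eq_mul]
      _ ≤ ∑ f ∈ univ.filter P, Z f := sum_le_sum fun f hf => (hP f (mem_filter.1 hf).2).le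
      _ ≤ ∑ f, Z f := sum_le_sum_of_subset_of_nonneg (filter_subset _ _) fun f _ _ => hZ f
  have h2 : ∑ f, Z f ≤ B * Fintype.card Γ := by
    unfold av at h
    rwa [div_le_iff₀ hc] at h
  have h3 : ((univ.filter P).card : ℝ) * (B * lam ^ 2) ≤ B * Fintype.card Γ := h1.trans h2
  rw [one_div, ← div_eq_inv_mul, le_div_iff₀ (by positivity)]
  nlinarith

open Classical in
/-- **The power sums of almost all sections.** -/
theorem core (G : Set (MvPolynomial (Fin (n + 1)) F)) (hG : ∀ g ∈ G, ∃ k, g.IsHomogeneous k) (D r : ℕ) (hD : 1 ≤ D)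
    (hA : Fintype.card A = r) (C₀ : ℝ) (hC₀ : 1 ≤ C₀)
    (hW : ∀ (E' : Type) [Field E'] [Fintype E'] [Algebra F E'], (npts G E' : ℝ) ≤ C₀ * (Fintype.card E' : ℝ) ^ (D + r))
    (g : ℕ → ℝ) (hg : ∀ (E : Type) [Field E] [Fintype E] [Algebra F E],
      |g (Module.finrank F E) - npts G E / (Fintype.card E : ℝ) ^ r| ≤ C₀ * Real.sqrt (Fintype.card E) ^ D)
    (K : ℕ) (hK : 1 ≤ K) (hd : ∀ a, 2 * K ≤ d a + 1) (lam : ℝ) (hlam : 0 < lam) :
    ((univ.filter fun f : Fam F n d => ∃ α : Multiset ℂ, Tr G D g f α ∧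
      12 * C₀ ^ 2 * K * lam ^ 2 < ∑ m ∈ range K, pw F D α (m + 1) ^ 2 / (m + 1 : ℕ)).card : ℝ) ≤ 1 / lam ^ 2 * Fintype.card (Fam F n d) := by
  have hex := fun m : ℕ => exists_ext (F := F) (m + 1) (by omega)
  choose Em i1 i2 i3 hEm using hex
  have hq1 : (1 : ℝ) < Fintype.card F := by exact_mod_cast Fintype.one_lt_card
  have hq0 : (0 : ℝ) < Fintype.card F := by linarith
  have hcard : ∀ m, (Fintype.card (Em m) : ℝ) = (Fintype.card F : ℝ) ^ (m + 1) := by
    intro m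
    rw [card_ext (F := F) (E := Em m), hEm]
    push_cast
    rfl
  obtain ⟨Z, hZ⟩ : ∃ Z : Fam F n d → ℝ, Z = fun f => ∑ m ∈ range K,
    1 / (((m + 1 : ℕ) : ℝ) * (Fintype.card (Em m) : ℝ) ^ D) * ((npts (eqs G f) (Em m) : ℝ) - g (m + 1)) ^ 2 := ⟨_, rfl⟩
  have hEpos : ∀ m, (0 : ℝ) < Fintype.card (Em m) := fun m => by exact_mod_cast Fintype.card_pos
  have hZ0 : ∀ f, 0 ≤ Z f := by
    intro f
    rw [hZ]
    refine sum_nonneg fun m _ => ?_
    have := hEpos m
    positivity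
  have hav : av Z ≤ 12 * C₀ ^ 2 * K := by
    rw [hZ, av_sum]
    have h1 : ∀ m ∈ range K, av (fun f : Fam F n d => 1 / (((m + 1 : ℕ) : ℝ) * (Fintype.card (Em m) : ℝ) ^ D) *
        ((npts (eqs G f) (Em m) : ℝ) - g (m + 1)) ^ 2) ≤ 12 * C₀ ^ 2 := by
      intro m hm
      rw [mem_range] at hm
      have h2 := hg (Em m)
      rw [hEm] at h2
      rw [av_smul, one_div, ← div_eq_inv_mul]
      have := hEpos m
      rw [div_le_iff₀ (by positivity)]
      have h3 := var_pts (d := d) G hG D r hD hA C₀ hC₀ hW (Em m) (fun a => by rw [hEm]; have := hd a; omega) (g (m + 1)) h2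
      rw [hEm] at h3
      refine h3.trans (le_of_eq ?_)
      ring
    refine (sum_le_sum h1).trans (le_of_eq ?_)
    rw [sum_const, card_range, nsmul_eq_mul]
    ring
  have hK0 : (0 : ℝ) < K := by exact_mod_cast hK
  refine markov Z hZ0 (12 * C₀ ^ 2 * K) (by positivity) hav lam hlam _ fun f hf => ?_
  obtain ⟨α, hα, hlt⟩ := hf
  refine lt_of_lt_of_eq hlt ?_
  rw [hZ]
  refine sum_congr rfl fun m _ => ?_
  have h1 := hα (Em m)
  rw [hEm] at h1
  have h2 : (α.map fun a => a ^ (m + 1)).sum = (-1) ^ D * (((npts (eqs G f) (Em m) : ℝ) - g (m + 1) : ℝ) : ℂ) := by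
    have h3 : ((-1 : ℂ) ^ D) * (-1) ^ D = 1 := by rw [← mul_pow]; norm_num
    push_cast
    rw [h1]
    linear_combination (-(α.map fun a => a ^ (m + 1)).sum) * h3
  unfold pw
  rw [h2, norm_mul, norm_pow, norm_neg, norm_one, one_pow, one_mul, Complex.norm_real, Real.norm_eq_abs, div_pow, sq_abs, hcard]
  have h4 : (Real.sqrt (Fintype.card F) ^ (D * (m + 1))) ^ 2 = ((Fintype.card F : ℝ) ^ (m + 1)) ^ D := by
    rw [← pow_mul, mul_comm (D * (m + 1)) 2, pow_mul, Real.sq_sqrt hq0.le, mul_comm D, pow_mul]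
  rw [h4]
  have h5 : (0 : ℝ) < ((Fintype.card F : ℝ) ^ (m + 1)) ^ D := by positivity
  have h6 : (0 : ℝ) < ((m + 1 : ℕ) : ℝ) := by positivity
  field_simp

end

end Q282QF
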