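import Mathlib

/-!
# The Frobenius map on the points of a projective space over an extension of a finite field
-/

set_option autoImplicit false
set_option linter.unusedSectionVars false

namespace Q282QF

open Finset MvPolynomial
open scoped LinearAlgebra.Projectivization

variable (F : Type) [Field F] [Fintype F] {E : Type} [Field E] [Fintype E] [Algebra F E] {n : ℕ}

/-- the `i`-th power of the Frobenius map on vectors -/
def frv (i : ℕ) (y : Fin (n + 1) → E) : Fin (n + 1) → E := fun k => y k ^ (Fintype.card F ^ i)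

lemma frv_ne (i : ℕ) {y : Fin (n + 1) → E} (hy : y ≠ 0) : frv F i y ≠ 0 := by
  intro h
  apply hy
  funext k
  have h1 := congrFun h k
  unfold frv at h1
  exact pow_eq_zero_iff (pow_ne_zero _ Fintype.card_ne_zero) |>.1 h1

lemma frv_zero (y : Fin (n + 1) → E) : frv F 0 y = y := by
  funext k
  unfold frv
  rw [pow_zero, pow_one]

lemma frv_frv (i j : ℕ) (y : Fin (n + 1) → E) : frv F i (frv F j y) = frv F (i + j) y := by
  funext k
  unfold frv
  rw [← pow_mul, ← pow_add, add_comm]

lemma frv_smul (i : ℕ) (c : E) (y : Fin (n + 1) → E) : frv F i (c • y) = c ^ (Fintype.card F ^ i) • frv F i y := by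
  funext k
  unfold frv
  rw [Pi.smul_apply, Pi.smul_apply, smul_eq_mul, smul_eq_mul, mul_pow]

lemma frv_period (y : Fin (n + 1) → E) : frv F (Module.finrank F E) y = y := by
  funext k
  unfold frv
  rw [← Module.card_eq_pow_finrank (K := F) (V := E)]
  exact FiniteField.pow_card _

/-- the Frobenius map on points -/
noncomputable def Phi (P : ℙ E (Fin (n + 1) → E)) : ℙ E (Fin (n + 1) → E) :=
  Projectivization.mk E (frv F 1 P.rep) (frv_ne F 1 P.rep_nonzero)

lemma mk_frv_congr (i : ℕ) {y z : Fin (n + 1) → E} (hy : y ≠ 0) (hz : z ≠ 0)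
    (h : Projectivization.mk E y hy = Projectivization.mk E z hz) :
    Projectivization.mk E (frv F i y) (frv_ne F i hy) = Projectivization.mk E (frv F i z) (frv_ne F i hz) := by
  rw [Projectivization.mk_eq_mk_iff'] at h ⊢
  obtain ⟨a, ha⟩ := h
  refine ⟨a ^ (Fintype.card F ^ i), ?_⟩
  rw [← frv_smul, ha]

lemma Phi_mk (y : Fin (n + 1) → E) (hy : y ≠ 0) :
    Phi F (Projectivization.mk E y hy) = Projectivization.mk E (frv F 1 y) (frv_ne F 1 hy) := by
  unfold Phi
  exact mk_frv_congr F 1 _ _ (Projectivization.mk_rep _)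

lemma Phi_iter (i : ℕ) (y : Fin (n + 1) → E) (hy : y ≠ 0) :
    (Phi F)^[i] (Projectivization.mk E y hy) = Projectivization.mk E (frv F i y) (frv_ne F i hy) := by
  induction i with
  | zero =>
    rw [Function.iterate_zero, id]
    congr 1
    rw [frv_zero]
  | succ i ih =>
    rw [Function.iterate_succ_apply', ih, Phi_mk]
    congr 1
    rw [frv_frv, Nat.add_comm 1 i]

lemma Phi_iter' (i : ℕ) (P : ℙ E (Fin (n + 1) → E)) :
    (Phi F)^[i] P = Projectivization.mk E (frv F i P.rep) (frv_ne F i P.rep_nonzero) := by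
  conv_lhs => rw [← P.mk_rep]
  exact Phi_iter F i P.rep P.rep_nonzero

lemma Phi_period (P : ℙ E (Fin (n + 1) → E)) : (Phi F)^[Module.finrank F E] P = P := by
  rw [Phi_iter']
  conv_rhs => rw [← P.mk_rep]
  congr 1
  exact frv_period F P.rep

/-- the number of the conjugates of a point -/
noncomputable def dg (P : ℙ E (Fin (n + 1) → E)) : ℕ := Function.minimalPeriod (Phi F) P

lemma dg_dvd (P : ℙ E (Fin (n + 1) → E)) : dg F P ∣ Module.finrank F E :=
  Function.IsPeriodicPt.minimalPeriod_dvd (Phi_period F P)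

lemma finrank_pos' : 0 < Module.finrank F E := by
  have : Module.Finite F E := Module.Finite.of_finite
  exact Module.finrank_pos

lemma dg_pos (P : ℙ E (Fin (n + 1) → E)) : 0 < dg F P := by
  have : Module.Finite F E := Module.Finite.of_finite
  exact Nat.pos_of_dvd_of_pos (dg_dvd F P) Module.finrank_pos

lemma dg_le (P : ℙ E (Fin (n + 1) → E)) : dg F P ≤ Module.finrank F E := Nat.le_of_dvd (finrank_pos' F) (dg_dvd F P)

lemma Phi_dg (P : ℙ E (Fin (n + 1) → E)) : (Phi F)^[dg F P] P = P := Function.iterate_minimalPeriod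

/-- the conjugates of a point -/
noncomputable def orb (P : ℙ E (Fin (n + 1) → E)) : Finset (ℙ E (Fin (n + 1) → E)) :=
  open Classical in (range (dg F P)).image fun i => (Phi F)^[i] P

lemma card_orb (P : ℙ E (Fin (n + 1) → E)) : (orb F P).card = dg F P := by
  classical
  unfold orb
  rw [card_image_of_injOn, card_range]
  intro i hi j hj h
  have hi' : i < dg F P := by simpa using hi
  have hj' : j < dg F P := by simpa using hj
  exact Function.iterate_injOn_Iio_minimalPeriod hi' hj' h

lemma iter_mem_orb (P : ℙ E (Fin (n + 1) → E)) (i : ℕ) : (Phi F)^[i] P ∈ orb F P := by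
  classical
  unfold orb
  rw [mem_image]
  refine ⟨i % dg F P, mem_range.2 (Nat.mod_lt _ (dg_pos F P)), ?_⟩
  exact Function.iterate_mod_minimalPeriod_eq

lemma mem_orb_self (P : ℙ E (Fin (n + 1) → E)) : P ∈ orb F P := iter_mem_orb F P 0

lemma mem_orb {P P' : ℙ E (Fin (n + 1) → E)} : P' ∈ orb F P ↔ ∃ i, (Phi F)^[i] P = P' := by
  classical
  constructor
  · intro h
    unfold orb at h
    rw [mem_image] at h
    obtain ⟨i, _, h⟩ := h
    exact ⟨i, h⟩
  · rintro ⟨i, rfl⟩
    exact iter_mem_orb F P i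

lemma orb_symm {P P' : ℙ E (Fin (n + 1) → E)} (h : P' ∈ orb F P) : P ∈ orb F P' := by
  rw [mem_orb] at h ⊢
  obtain ⟨i, rfl⟩ := h
  have hm := finrank_pos' F (E := E)
  refine ⟨Module.finrank F E * i - i, ?_⟩
  rw [← Function.iterate_add_apply, Nat.sub_add_cancel (Nat.le_mul_of_pos_left i hm)]
  exact Function.IsPeriodicPt.mul_const (Phi_period F P) i

lemma orb_disjoint {P P' : ℙ E (Fin (n + 1) → E)} (h : P' ∉ orb F P) : Disjoint (orb F P) (orb F P') := by
  classical
  rw [disjoint_left]
  intro R h1 h2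
  apply h
  obtain ⟨i, hi⟩ := (mem_orb F).1 h1
  obtain ⟨j, hj⟩ := (mem_orb F).1 (orb_symm F h2)
  rw [mem_orb]
  refine ⟨j + i, ?_⟩
  rw [Function.iterate_add_apply, hi, hj]

/-! ### Values of forms -/

lemma aeval_frv (i : ℕ) (y : Fin (n + 1) → E) (f : MvPolynomial (Fin (n + 1)) F) :
    aeval (frv F i y) f = (aeval y f) ^ (Fintype.card F ^ i) := by
  induction i with
  | zero => rw [frv_zero, pow_zero, pow_one]
  | succ i ih =>
    have h1 : frv F (i + 1) y = fun k => FiniteField.frobeniusAlgHom F E (frv F i y k) := by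
      funext k
      rw [FiniteField.frobeniusAlgHom_apply]
      unfold frv
      rw [← pow_mul, ← pow_succ]
    rw [h1, ← comp_aeval_apply, FiniteField.frobeniusAlgHom_apply, ih, ← pow_mul, ← pow_succ]

lemma aeval_smul' {d : ℕ} {f : MvPolynomial (Fin (n + 1)) F} (hf : f.IsHomogeneous d) (c : E) (y : Fin (n + 1) → E) :
    aeval (c • y) f = c ^ d * aeval y f := by
  rw [aeval_def, aeval_def, eval₂_eq, eval₂_eq, mul_sum]
  refine sum_congr rfl fun e he => ?_
  have h1 : e.degree = d := by
    have h2 := hf (mem_support_iff.1 he)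
    rw [Finsupp.degree_eq_weight_one]
    exact h2
  have h3 : ∏ i ∈ e.support, (c • y) i ^ e i = c ^ d * ∏ i ∈ e.support, y i ^ e i := by
    simp only [Pi.smul_apply, smul_eq_mul, mul_pow]
    rw [prod_mul_distrib, prod_pow_eq_pow_sum, ← h1]
    rfl
  rw [h3]
  ring

end Q282QF
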