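import Pool.Agent.Q282.QF.Fej
import Pool.Agent.Q282.PB.Clus

/-!
# Random sections over a finite field: multiplicities and clusters of eigenvalues
-/

set_option autoImplicit false
set_option linter.unusedSectionVars false

namespace Q282QF

open Finset

variable {F : Type} [Field F] [Fintype F]

/-- **The clusters of eigenvalues.** -/
theorem clus_bound (D : ℕ) (α : Multiset ℂ) (hα : ∀ a ∈ α, ‖a‖ = Real.sqrt (Fintype.card F) ^ D) (K : ℕ) (hK : 1 ≤ K) (C₀ lam : ℝ) (hC₀ : 0 ≤ C₀)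
    (hlam : 0 ≤ lam) (h : ∑ m ∈ range K, pw F D α (m + 1) ^ 2 / (m + 1 : ℕ) ≤ 12 * C₀ ^ 2 * K * lam ^ 2) (β : ℂ)
    (hβ : ‖β‖ = Real.sqrt (Fintype.card F) ^ D) :
    (Multiset.card (α.filter fun a => ‖a - β‖ ≤ Real.sqrt (Fintype.card F) ^ D / (K + 1 : ℕ)) : ℝ) ≤
      4 * (Multiset.card α / ((K + 1 : ℕ) : ℝ) + 5 * C₀ * lam * Real.sqrt (K + 1 : ℕ)) := by
  have hq1 : (1 : ℝ) < Fintype.card F := by exact_mod_cast Fintype.one_lt_card
  have hR : (0 : ℝ) < Real.sqrt (Fintype.card F) ^ D := by positivity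
  have h1 := Q282PB.clus_det α hR hα hβ (h := K + 1) (by omega)
  have h2 : ∑ m ∈ Ico 1 (K + 1), (((K + 1 : ℕ) : ℝ) - m) * ((α.map fun a => a ^ m).sum / β ^ m).re ≤
      ∑ m ∈ range K, ((K : ℝ) - m) * pw F D α (m + 1) := by
    rw [range_eq_Ico, ← sum_Ico_add' (fun m : ℕ => (((K + 1 : ℕ) : ℝ) - m) * ((α.map fun a => a ^ m).sum / β ^ m).re) 0 K 1]
    refine sum_le_sum fun m hm => ?_
    rw [mem_Ico] at hm
    have hm' : (m : ℝ) ≤ K := by exact_mod_cast hm.2.le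
    have e1 : (((K + 1 : ℕ) : ℝ) - (m + 1 : ℕ)) = K - m := by
      push_cast
      ring
    rw [e1]
    refine mul_le_mul_of_nonneg_left ?_ (by linarith)
    refine (Complex.re_le_norm _).trans (le_of_eq ?_)
    unfold pw
    rw [norm_div, norm_pow, hβ, ← pow_mul]
  have h3 := cs (F := F) D α K (12 * C₀ ^ 2 * lam ^ 2) (by positivity) (by linarith)
  have h4 : Real.sqrt (12 * C₀ ^ 2 * lam ^ 2 / 2) ≤ 5 / 2 * (C₀ * lam) := by
    rw [Real.sqrt_le_left (by positivity)]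
    nlinarith [sq_nonneg (C₀ * lam)]
  obtain ⟨N, hN⟩ : ∃ N : ℝ, N = Multiset.card (α.filter fun a => ‖a - β‖ ≤ Real.sqrt (Fintype.card F) ^ D / (K + 1 : ℕ)) := ⟨_, rfl⟩
  rw [← hN] at h1 ⊢
  obtain ⟨k, hk⟩ : ∃ k : ℝ, k = ((K + 1 : ℕ) : ℝ) := ⟨_, rfl⟩
  have hk0 : 0 < k := by
    rw [hk]
    positivity
  have hKk : (K : ℝ) ≤ k := by
    rw [hk]
    push_cast
    linarith
  rw [← hk] at h1 h2 h3 ⊢
  have hs : 0 ≤ Real.sqrt k := Real.sqrt_nonneg _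
  have h5 : Real.sqrt (12 * C₀ ^ 2 * lam ^ 2 / 2) * K * k * Real.sqrt k ≤ 5 / 2 * (C₀ * lam) * k * k * Real.sqrt k := by
    refine mul_le_mul_of_nonneg_right (mul_le_mul_of_nonneg_right ?_ hk0.le) hs
    exact mul_le_mul h4 hKk (Nat.cast_nonneg _) (by positivity)
  have h6 : k ^ 2 / 4 * N ≤ k * Multiset.card α + 2 * (5 / 2 * (C₀ * lam) * k * k * Real.sqrt k) := by linarith
  have h7 : k * k * N ≤ k * k * (4 * (Multiset.card α / k + 5 * C₀ * lam * Real.sqrt k)) := by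
    have e : k * k * (4 * (Multiset.card α / k + 5 * C₀ * lam * Real.sqrt k)) =
        4 * (k * Multiset.card α) + 4 * (5 * C₀ * lam * Real.sqrt k * k * k) := by
      field_simp
    rw [e]
    nlinarith
  exact le_of_mul_le_mul_left h7 (by positivity)

open Classical in
/-- **Almost all sections.** -/
theorem main {n : ℕ} {A : Type} [Fintype A] {d : A → ℕ} (G : Set (MvPolynomial (Fin (n + 1)) F)) (hG : ∀ g ∈ G, ∃ k, g.IsHomogeneous k)
    (D : ℕ) (hD : 1 ≤ D) (C₀ : ℝ) (hC₀ : 1 ≤ C₀)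
    (hW : ∀ (E : Type) [Field E] [Fintype E] [Algebra F E], (npts G E : ℝ) ≤ C₀ * (Fintype.card E : ℝ) ^ (D + Fintype.card A))
    (g : ℕ → ℝ) (hg : ∀ (E : Type) [Field E] [Fintype E] [Algebra F E],
      |g (Module.finrank F E) - npts G E / (Fintype.card E : ℝ) ^ Fintype.card A| ≤ C₀ * Real.sqrt (Fintype.card E) ^ D)
    (K : ℕ) (hK : 1 ≤ K) (hd : ∀ a, 2 * K ≤ d a + 1) (ε b : ℝ) (hε : 0 < ε) (hb : 0 < b) :
    ((univ.filter fun f : Fam F n d => ∃ α : Multiset ℂ, b ≤ Multiset.card α ∧ (∀ a ∈ α, ‖a‖ = Real.sqrt (Fintype.card F) ^ D) ∧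
      Tr G D g f α ∧ ∃ β : ℂ, (1 + ε) * Multiset.card α / (K + 1 : ℕ) < α.count β ∨
        (‖β‖ = Real.sqrt (Fintype.card F) ^ D ∧ 4 * ((1 + ε) * Multiset.card α / (K + 1 : ℕ)) <
          Multiset.card (α.filter fun a => ‖a - β‖ ≤ Real.sqrt (Fintype.card F) ^ D / (K + 1 : ℕ)))).card : ℝ) ≤
      25 * C₀ ^ 2 * ((K + 1 : ℕ) : ℝ) ^ 3 / (ε * b) ^ 2 * Fintype.card (Fam F n d) := by
  obtain ⟨k, hk⟩ : ∃ k : ℝ, k = ((K + 1 : ℕ) : ℝ) := ⟨_, rfl⟩
  have hk0 : 0 < k := by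
    rw [hk]
    positivity
  have hs : 0 < Real.sqrt k := Real.sqrt_pos.2 hk0
  have hs2 : Real.sqrt k ^ 2 = k := Real.sq_sqrt hk0.le
  obtain ⟨lam, hl⟩ : ∃ lam : ℝ, lam = ε * b / (5 * C₀ * (k * Real.sqrt k)) := ⟨_, rfl⟩
  have hC0 : 0 < C₀ := by linarith
  have hl0 : 0 < lam := by
    rw [hl]
    positivity
  have h1 := core (F := F) (A := A) (d := d) G hG D (Fintype.card A) hD rfl C₀ hC₀ hW g hg K hK hd lam hl0
  have e1 : 1 / lam ^ 2 = 25 * C₀ ^ 2 * k ^ 3 / (ε * b) ^ 2 := by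
    rw [hl, div_pow, one_div_div, mul_pow, mul_pow, mul_pow, hs2]
    ring
  rw [e1] at h1
  rw [← hk]
  refine le_trans (Nat.cast_le.2 (card_le_card ?_)) h1
  intro f hf
  rw [mem_filter] at hf ⊢
  refine ⟨mem_univ _, ?_⟩
  obtain ⟨-, α, hbα, hnα, htr, β, hβ⟩ := hf
  refine ⟨α, htr, ?_⟩
  by_contra hcon
  rw [not_lt] at hcon
  have h2 := mult_bound (F := F) D α hnα K hK C₀ lam hC0.le hl0.le hcon β
  rw [← hk] at h2
  have h3 : 5 * C₀ * lam * Real.sqrt k ≤ ε * Multiset.card α / k := by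
    have e2 : 5 * C₀ * lam * Real.sqrt k = ε * b / k := by
      rw [hl]
      field_simp
    rw [e2]
    exact div_le_div_of_nonneg_right (mul_le_mul_of_nonneg_left hbα hε.le) hk0.le
  have e3 : (1 + ε) * Multiset.card α / k = Multiset.card α / k + ε * Multiset.card α / k := by ring
  rcases hβ with hβ | ⟨hβn, hβ⟩
  · rw [e3] at hβ
    linarith
  · have h4 := clus_bound (F := F) D α hnα K hK C₀ lam hC0.le hl0.le hcon β hβn
    rw [← hk] at h4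
    rw [e3] at hβ
    linarith

end Q282QF
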