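import Pool.Agent.Q282.QF.Sep

/-!
# Random sections over a finite field: the probability to contain a point
-/

set_option autoImplicit false
set_option linter.unusedSectionVars false

namespace Q282QF

open Finset MvPolynomial
open scoped LinearAlgebra.Projectivization
open Q282GP (av av_add av_sub av_smul av_sum av_const av_nonneg av_mono)

/-- the families of forms -/
abbrev Fam (F : Type) [Field F] (n : ℕ) {A : Type} (d : A → ℕ) : Type := (a : A) → homogeneousSubmodule (Fin (n + 1)) F (d a)

section

variable {F : Type} [Field F] [Fintype F] {E : Type} [Field E] [Fintype E] [Algebra F E] {n : ℕ} {A : Type} [Fintype A] [DecidableEq A]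
  {d : A → ℕ}

noncomputable instance : Fintype (Fam F n d) := Fintype.ofFinite _

/-- the point lies on the member -/
def On (f : Fam F n d) (P : ℙ E (Fin (n + 1) → E)) : Prop := ∀ a, aeval P.rep (f a).1 = 0

lemma card_forms (k : ℕ) : (Nat.card (homogeneousSubmodule (Fin (n + 1)) F k) : ℝ) =
    (Fintype.card F : ℝ) ^ Module.finrank F (homogeneousSubmodule (Fin (n + 1)) F k) := by
  rw [Module.natCard_eq_pow_finrank (K := F), Nat.card_eq_fintype_card]
  push_cast
  rfl

open Classical in
/-- the average of the indicator function of a product of kernels -/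
lemma av_ker (M : A → Type) [∀ a, AddCommGroup (M a)] [∀ a, Module F (M a)]
    (T : (a : A) → homogeneousSubmodule (Fin (n + 1)) F (d a) →ₗ[F] M a) (R : A → ℕ)
    (hR : ∀ a, Module.finrank F (LinearMap.range (T a)) = R a) :
    av (fun f : Fam F n d => if ∀ a, T a (f a) = 0 then (1 : ℝ) else 0) = ∏ a, 1 / (Fintype.card F : ℝ) ^ R a := by
  have hq : (0 : ℝ) < Fintype.card F := by exact_mod_cast Fintype.card_pos
  unfold av
  rw [sum_boole]
  have h1 : ((univ.filter fun f : Fam F n d => ∀ a, T a (f a) = 0).card : ℝ) =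
      ∏ a, (Fintype.card F : ℝ) ^ Module.finrank F (LinearMap.ker (T a)) := by
    have h2 : Nat.card {f : Fam F n d // ∀ a, T a (f a) = 0} = ∏ a, Nat.card (LinearMap.ker (T a)) := by
      rw [← Nat.card_pi]
      refine Nat.card_congr ⟨fun f a => ⟨f.1 a, f.2 a⟩, fun g => ⟨fun a => (g a).1, fun a => (g a).2⟩, fun f => rfl, fun g => rfl⟩
    rw [Nat.card_eq_fintype_card, Fintype.card_subtype] at h2
    rw [h2]
    push_cast
    refine prod_congr rfl fun a _ => ?_
    rw [Module.natCard_eq_pow_finrank (K := F), Nat.card_eq_fintype_card]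
    push_cast
    rfl
  have h3 : (Fintype.card (Fam F n d) : ℝ) = ∏ a, (Fintype.card F : ℝ) ^ Module.finrank F (homogeneousSubmodule (Fin (n + 1)) F (d a)) := by
    rw [← Nat.card_eq_fintype_card, Nat.card_pi]
    push_cast
    exact prod_congr rfl fun a _ => card_forms (d a)
  rw [h1, h3, ← prod_div_distrib]
  refine prod_congr rfl fun a _ => ?_
  have h4 := LinearMap.finrank_range_add_finrank_ker (T a)
  rw [← h4, hR a, pow_add, div_eq_div_iff (by positivity) (by positivity)]
  ring

open Classical in
lemma prob_one (P : ℙ E (Fin (n + 1) → E)) (hd : ∀ a, dg F P ≤ d a + 1) :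
    av (fun f : Fam F n d => if On f P then (1 : ℝ) else 0) = 1 / ((Fintype.card F : ℝ) ^ Fintype.card A) ^ dg F P := by
  have h1 := av_ker (F := F) (n := n) (d := d) (fun _ => E) (fun a => evP P (d a)) (fun _ => dg F P) (fun a => rank_one P (d a) (hd a))
  rw [prod_const, card_univ, div_pow, one_pow, ← pow_mul, mul_comm, pow_mul] at h1
  rw [← h1]
  congr 1
  funext f
  exact if_congr Iff.rfl rfl rfl

open Classical in
lemma prob_two (P P' : ℙ E (Fin (n + 1) → E)) (h : P' ∉ orb F P) (hd : ∀ a, dg F P + dg F P' ≤ d a + 1) :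
    av (fun f : Fam F n d => (if On f P then (1 : ℝ) else 0) * (if On f P' then (1 : ℝ) else 0)) =
      1 / ((Fintype.card F : ℝ) ^ Fintype.card A) ^ dg F P * (1 / ((Fintype.card F : ℝ) ^ Fintype.card A) ^ dg F P') := by
  have h1 := av_ker (F := F) (n := n) (d := d) (fun _ => E × E) (fun a => (evP P (d a)).prod (evP P' (d a))) (fun _ => dg F P + dg F P')
    (fun a => rank_two P P' h (d a) (hd a))
  rw [prod_const, card_univ, div_pow, one_pow, ← pow_mul, mul_comm, pow_mul, pow_add] at h1
  rw [one_div_mul_one_div, ← h1]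
  congr 1
  funext f
  have h2 : (∀ a, ((evP P (d a)).prod (evP P' (d a))) (f a) = 0) ↔ On f P ∧ On f P' := by
    unfold On
    rw [← forall_and]
    refine forall_congr' fun a => ?_
    show (evP P (d a) (f a), evP P' (d a) (f a)) = (0, 0) ↔ _
    rw [Prod.mk.injEq, evP_apply, evP_apply]
  by_cases hP : On f P
  · by_cases hP' : On f P'
    · rw [if_pos hP, if_pos hP', if_pos (h2.2 ⟨hP, hP'⟩), mul_one]
    · rw [if_neg hP', if_neg (fun h => hP' (h2.1 h).2), mul_zero]
  · rw [if_neg hP, if_neg (fun h => hP (h2.1 h).1), zero_mul]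

open Classical in
/-- the number of the points of the set `S` on the member -/
noncomputable def cnt (S : Finset (ℙ E (Fin (n + 1) → E))) (f : Fam F n d) : ℝ := ∑ P ∈ S, if On f P then (1 : ℝ) else 0

/-- the expected number of points -/
noncomputable def mn (F : Type) [Field F] [Fintype F] [Algebra F E] (r : ℕ) (S : Finset (ℙ E (Fin (n + 1) → E))) : ℝ :=
  ∑ P ∈ S, 1 / ((Fintype.card F : ℝ) ^ r) ^ dg F P

lemma mn_nonneg (r : ℕ) (S : Finset (ℙ E (Fin (n + 1) → E))) : 0 ≤ mn F r S := by
  unfold mn
  exact sum_nonneg fun P _ => by positivity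

lemma av_cnt (S : Finset (ℙ E (Fin (n + 1) → E))) (hd : ∀ a, Module.finrank F E ≤ d a + 1) :
    av (fun f : Fam F n d => cnt S f) = mn F (Fintype.card A) S := by
  classical
  unfold cnt mn
  rw [av_sum]
  exact sum_congr rfl fun P _ => prob_one P fun a => (dg_le F P).trans (hd a)

theorem av_cnt_sq (S : Finset (ℙ E (Fin (n + 1) → E))) (hd : ∀ a, 2 * Module.finrank F E ≤ d a + 1) :
    av (fun f : Fam F n d => cnt S f ^ 2) ≤ mn F (Fintype.card A) S ^ 2 + Module.finrank F E * mn F (Fintype.card A) S := by
  classical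
  have hq : (0 : ℝ) < Fintype.card F := by exact_mod_cast Fintype.card_pos
  have h1 : (fun f : Fam F n d => cnt S f ^ 2) = fun f => ∑ P ∈ S, ∑ P' ∈ S, (if On f P then (1 : ℝ) else 0) * (if On f P' then (1 : ℝ) else 0) := by
    funext f
    unfold cnt
    rw [sq, sum_mul_sum]
  rw [h1, av_sum]
  have h2 : ∀ P ∈ S, av (fun f : Fam F n d => ∑ P' ∈ S, (if On f P then (1 : ℝ) else 0) * (if On f P' then (1 : ℝ) else 0)) ≤
      1 / ((Fintype.card F : ℝ) ^ Fintype.card A) ^ dg F P * mn F (Fintype.card A) S +
        Module.finrank F E * (1 / ((Fintype.card F : ℝ) ^ Fintype.card A) ^ dg F P) := by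
    intro P _
    rw [av_sum]
    have h3 : ∀ P' ∈ S, av (fun f : Fam F n d => (if On f P then (1 : ℝ) else 0) * (if On f P' then (1 : ℝ) else 0)) ≤
        1 / ((Fintype.card F : ℝ) ^ Fintype.card A) ^ dg F P * (1 / ((Fintype.card F : ℝ) ^ Fintype.card A) ^ dg F P') +
          (if P' ∈ orb F P then 1 / ((Fintype.card F : ℝ) ^ Fintype.card A) ^ dg F P else 0) := by
      intro P' _
      by_cases h : P' ∈ orb F P
      · rw [if_pos h]
        have h4 : av (fun f : Fam F n d => (if On f P then (1 : ℝ) else 0) * (if On f P' then (1 : ℝ) else 0)) ≤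
            av (fun f : Fam F n d => if On f P then (1 : ℝ) else 0) := by
          refine av_mono _ _ fun f => ?_
          split_ifs <;> norm_num
        rw [prob_one P fun a => (dg_le F P).trans (by have := hd a; omega)] at h4
        have h5 : (0 : ℝ) ≤ 1 / ((Fintype.card F : ℝ) ^ Fintype.card A) ^ dg F P * (1 / ((Fintype.card F : ℝ) ^ Fintype.card A) ^ dg F P') := by
          positivity
        linarith
      · rw [if_neg h, add_zero, prob_two P P' h fun a => by
          have := hd a
          have := dg_le F P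
          have := dg_le F P'
          omega]
    refine (sum_le_sum h3).trans ?_
    rw [sum_add_distrib, ← mul_sum]
    refine add_le_add le_rfl ?_
    rw [← sum_filter, sum_const, nsmul_eq_mul]
    refine mul_le_mul_of_nonneg_right ?_ (by positivity)
    have h6 : (S.filter fun P' => P' ∈ orb F P).card ≤ (orb F P).card := card_le_card fun P' h => (mem_filter.1 h).2
    rw [card_orb] at h6
    exact_mod_cast h6.trans (dg_le F P)
  refine (sum_le_sum h2).trans (le_of_eq ?_)
  rw [sum_add_distrib, ← sum_mul, ← mul_sum]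
  unfold mn
  ring

/-- **The second moment of the deviation.** -/
theorem av_dev (S : Finset (ℙ E (Fin (n + 1) → E))) (hd : ∀ a, 2 * Module.finrank F E ≤ d a + 1) (g : ℝ) :
    av (fun f : Fam F n d => (cnt S f - g) ^ 2) ≤ (mn F (Fintype.card A) S - g) ^ 2 + Module.finrank F E * mn F (Fintype.card A) S := by
  have h1 : (fun f : Fam F n d => (cnt S f - g) ^ 2) = fun f => (cnt S f ^ 2 - (2 * g) * cnt S f) + g ^ 2 := by
    funext f
    ring
  rw [h1, av_add, av_sub, av_smul, av_const, av_cnt S fun a => by have := hd a; omega]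
  have h2 := av_cnt_sq (d := d) S hd
  linarith

end

end Q282QF
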