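import Pool.Agent.Q282.QF.Frob
import Pool.Agent.Q282.AE.Cnt

/-!
# The values of forms over a finite field at the points over an extension
-/

set_option autoImplicit false
set_option linter.unusedSectionVars false

namespace Q282QF

open Finset MvPolynomial
open scoped LinearAlgebra.Projectivization

/-- forms over the extension separate points -/
lemma sepE {E : Type} [Field E] [Fintype E] {n : ℕ} (S : Finset (ℙ E (Fin (n + 1) → E))) (P : ℙ E (Fin (n + 1) → E)) (hP : P ∉ S)
    (d : ℕ) (hd : S.card ≤ d) :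
    ∃ G : MvPolynomial (Fin (n + 1)) E, G.IsHomogeneous d ∧ eval P.rep G ≠ 0 ∧ ∀ R ∈ S, eval R.rep G = 0 := by
  classical
  have h1 : ∀ R : ℙ E (Fin (n + 1) → E), ∃ l : MvPolynomial (Fin (n + 1)) E, l.IsHomogeneous 1 ∧
      (R ∈ S → eval R.rep l = 0 ∧ eval P.rep l ≠ 0) := by
    intro R
    by_cases hR : R ∈ S
    · have hne : P ≠ R := fun h => hP (h ▸ hR)
      obtain ⟨l, h1, h2, h3⟩ := Q282AE.exists_linear (RingHom.id E) Function.surjective_id P R hne
      exact ⟨l, h1, fun _ => ⟨h2, h3⟩⟩
    · exact ⟨0, isHomogeneous_zero _ _ _, fun h => absurd h hR⟩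
  choose l hl using h1
  obtain ⟨k, hk⟩ : ∃ k, P.rep k ≠ 0 := by
    by_contra h0
    push Not at h0
    exact P.rep_nonzero (funext h0)
  refine ⟨(∏ R ∈ S, l R) * X k ^ (d - S.card), ?_, ?_, ?_⟩
  · have h2 : (∏ R ∈ S, l R).IsHomogeneous (∑ _R ∈ S, 1) := IsHomogeneous.prod _ _ _ fun R _ => (hl R).1
    rw [sum_const, smul_eq_mul, mul_one] at h2
    have h3 := h2.mul ((isHomogeneous_X E k).pow (d - S.card))
    rw [one_mul, Nat.add_sub_cancel' hd] at h3
    exact h3
  · rw [map_mul, map_prod, map_pow, eval_X]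
    exact mul_ne_zero (prod_ne_zero_iff.2 fun R hR => ((hl R).2 hR).2) (pow_ne_zero _ hk)
  · intro R hR
    rw [map_mul, map_prod, prod_eq_zero hR ((hl R).2 hR).1, zero_mul]

variable {F : Type} [Field F] [Fintype F] {E : Type} [Field E] [Fintype E] [Algebra F E] {n : ℕ}

/-- the values of a form at the points of a finite set -/
noncomputable def vals (S : Finset (ℙ E (Fin (n + 1) → E))) (f : MvPolynomial (Fin (n + 1)) F) : S → E := fun R => aeval R.1.rep f

lemma span_vals (S : Finset (ℙ E (Fin (n + 1) → E))) (d : ℕ) (hd : S.card ≤ d + 1) :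
    Submodule.span E {v : S → E | ∃ f : MvPolynomial (Fin (n + 1)) F, f.IsHomogeneous d ∧ v = vals S f} = ⊤ := by
  classical
  rw [eq_top_iff]
  intro v _
  have h1 : v = ∑ R : S, v R • Pi.single R (1 : E) := by
    funext R
    rw [Finset.sum_apply]
    simp only [Pi.smul_apply, smul_eq_mul, Pi.single_apply, mul_ite, mul_one, mul_zero]
    rw [sum_ite_eq univ R, if_pos (mem_univ _)]
  rw [h1]
  refine Submodule.sum_mem _ fun P _ => Submodule.smul_mem _ _ ?_
  obtain ⟨G, hG, hGP, hGS⟩ := sepE (S.erase P.1) P.1 (notMem_erase _ _) d (by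
    rw [card_erase_of_mem P.2]
    omega)
  have h2 : (Pi.single P (1 : E) : S → E) = (eval P.1.rep G)⁻¹ • ∑ e ∈ G.support, coeff e G • vals S (monomial e (1 : F)) := by
    funext R
    have h3 : ∑ e ∈ G.support, coeff e G • vals S (monomial e (1 : F)) R = eval R.1.rep G := by
      rw [eval_eq]
      refine sum_congr rfl fun e _ => ?_
      unfold vals
      rw [aeval_monomial, map_one, one_mul, smul_eq_mul]
      rfl
    rw [Pi.smul_apply, Finset.sum_apply]
    simp only [Pi.smul_apply]
    rw [h3, smul_eq_mul]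
    by_cases hR : R = P
    · rw [hR, Pi.single_eq_same, inv_mul_cancel₀ hGP]
    · rw [Pi.single_eq_of_ne hR, hGS R.1 (mem_erase.2 ⟨fun h => hR (Subtype.ext h), R.2⟩), mul_zero]
  rw [h2]
  refine Submodule.smul_mem _ _ (Submodule.sum_mem _ fun e he => Submodule.smul_mem _ _ (Submodule.subset_span ?_))
  refine ⟨monomial e 1, ?_, rfl⟩
  refine isHomogeneous_monomial _ ?_
  have h4 := hG (mem_support_iff.1 he)
  rw [Finsupp.degree_eq_weight_one]
  exact h4

instance finite_forms (d : ℕ) : Finite (homogeneousSubmodule (Fin (n + 1)) F d) := by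
  classical
  have h1 : {e : Fin (n + 1) →₀ ℕ | e.degree = d}.Finite := by
    refine (finite_toSet (Finset.finsuppAntidiag univ d)).subset ?_
    intro e he
    rw [mem_coe, mem_finsuppAntidiag]
    refine ⟨?_, fun i _ => mem_univ i⟩
    rw [← he, Finsupp.degree_eq_sum]
  have : Finite {e : Fin (n + 1) →₀ ℕ | e.degree = d} := h1
  refine Finite.of_injective (β := {e : Fin (n + 1) →₀ ℕ | e.degree = d} → F) (fun f e => coeff e.1 f.1) ?_
  intro f g h
  apply Subtype.ext
  ext e
  by_cases he : e.degree = d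
  · exact congrFun h ⟨e, he⟩
  · have h2 : ∀ f : homogeneousSubmodule (Fin (n + 1)) F d, coeff e f.1 = 0 := by
      intro f
      by_contra h0
      apply he
      have h3 := f.2 h0
      rw [Finsupp.degree_eq_weight_one]
      exact h3
    rw [h2 f, h2 g]

noncomputable instance (d : ℕ) : Module.Finite F (homogeneousSubmodule (Fin (n + 1)) F d) := Module.Finite.of_finite

/-- evaluation at the points of a finite set -/
noncomputable def evS (S : Finset (ℙ E (Fin (n + 1) → E))) (d : ℕ) : homogeneousSubmodule (Fin (n + 1)) F d →ₗ[F] (S → E) :=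
  LinearMap.pi fun R => (aeval R.1.rep : MvPolynomial (Fin (n + 1)) F →ₐ[F] E).toLinearMap ∘ₗ (homogeneousSubmodule (Fin (n + 1)) F d).subtype

lemma evS_apply (S : Finset (ℙ E (Fin (n + 1) → E))) (d : ℕ) (f : homogeneousSubmodule (Fin (n + 1)) F d) :
    evS S d f = vals S f.1 := rfl

lemma card_le_rank (S : Finset (ℙ E (Fin (n + 1) → E))) (d : ℕ) (hd : S.card ≤ d + 1) :
    S.card ≤ Module.finrank F (LinearMap.range (evS (F := F) S d)) := by
  classical
  obtain ⟨b⟩ : Nonempty (Module.Basis (Fin (Module.finrank F (LinearMap.range (evS (F := F) S d)))) F (LinearMap.range (evS (F := F) S d))) :=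
    ⟨Module.finBasis F _⟩
  have h1 : Submodule.span E (Set.range fun i => (b i : S → E)) = ⊤ := by
    rw [eq_top_iff, ← span_vals (F := F) S d hd, Submodule.span_le]
    rintro v ⟨f, hf, rfl⟩
    have hmem : vals S f ∈ LinearMap.range (evS (F := F) S d) := ⟨⟨f, hf⟩, rfl⟩
    have h2 := congrArg Subtype.val (b.sum_repr ⟨vals S f, hmem⟩)
    rw [AddSubmonoidClass.coe_finsetSum] at h2
    have h3 : vals S f = ∑ i, ((b.repr ⟨vals S f, hmem⟩) i • b i : LinearMap.range (evS (F := F) S d)).1 := h2.symm
    rw [SetLike.mem_coe, h3]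
    refine Submodule.sum_mem _ fun i _ => ?_
    rw [SetLike.val_smul]
    exact Submodule.smul_of_tower_mem _ _ (Submodule.subset_span ⟨i, rfl⟩)
  have h2 : Module.finrank E (S → E) = S.card := by
    rw [Module.finrank_fintype_fun_eq_card, Fintype.card_coe]
  calc S.card = Module.finrank E (⊤ : Submodule E (S → E)) := by rw [finrank_top, h2]
    _ = Module.finrank E (Submodule.span E (Set.range fun i => (b i : S → E))) := by rw [h1]
    _ ≤ (Set.range fun i => (b i : S → E)).toFinset.card := finrank_span_le_card _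
    _ ≤ Fintype.card (Fin (Module.finrank F (LinearMap.range (evS (F := F) S d)))) := by
        rw [Set.toFinset_range]
        exact card_image_le
    _ = _ := Fintype.card_fin _

/-- evaluation at (a representative of) a point -/
noncomputable def evP (P : ℙ E (Fin (n + 1) → E)) (d : ℕ) : homogeneousSubmodule (Fin (n + 1)) F d →ₗ[F] E :=
  (aeval P.rep : MvPolynomial (Fin (n + 1)) F →ₐ[F] E).toLinearMap ∘ₗ (homogeneousSubmodule (Fin (n + 1)) F d).subtype

lemma evP_apply (P : ℙ E (Fin (n + 1) → E)) (d : ℕ) (f : homogeneousSubmodule (Fin (n + 1)) F d) : evP P d f = aeval P.rep f.1 := rfl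

/-- a form that vanishes at a point vanishes at the conjugates -/
lemma zero_conj {d : ℕ} {f : MvPolynomial (Fin (n + 1)) F} (hf : f.IsHomogeneous d) (P : ℙ E (Fin (n + 1) → E)) (h : aeval P.rep f = 0) :
    ∀ R ∈ orb F P, aeval R.rep f = 0 := by
  intro R hR
  obtain ⟨i, rfl⟩ := (mem_orb F).1 hR
  rw [Phi_iter']
  obtain ⟨a, ha⟩ := Projectivization.exists_smul_eq_mk_rep E (frv F i P.rep) (frv_ne F i P.rep_nonzero)
  rw [← ha, Units.smul_def, aeval_smul' F hf, aeval_frv, h, zero_pow (pow_ne_zero _ Fintype.card_ne_zero), mul_zero]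

/-- the number of the solutions of `w ^ N = w` -/
lemma card_roots_le (N : ℕ) (hN : 1 < N) : Nat.card {w : E // w ^ N = w} ≤ N := by
  classical
  have h0 : (Polynomial.X ^ N - Polynomial.X : Polynomial E) ≠ 0 := FiniteField.X_pow_card_sub_X_ne_zero E hN
  have h1 := Polynomial.card_roots' (Polynomial.X ^ N - Polynomial.X : Polynomial E)
  rw [FiniteField.X_pow_card_sub_X_natDegree_eq E hN] at h1
  refine le_trans ?_ h1
  refine le_trans ?_ (Multiset.toFinset_card_le _)
  rw [Nat.card_eq_fintype_card, Fintype.card_subtype]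
  refine card_le_card fun w hw => ?_
  rw [mem_filter] at hw
  rw [Multiset.mem_toFinset, Polynomial.mem_roots h0, Polynomial.IsRoot.def, Polynomial.eval_sub, Polynomial.eval_pow, Polynomial.eval_X,
    hw.2, sub_self]

/-- a representative fixed by the power of Frobenius -/
lemma exists_fixed (P : ℙ E (Fin (n + 1) → E)) (e : ℕ) (he : (Phi F)^[e] P = P) :
    ∃ (c : E) (y : Fin (n + 1) → E), c ≠ 0 ∧ P.rep = c • y ∧ frv F e y = y := by
  obtain ⟨k, hk⟩ : ∃ k, P.rep k ≠ 0 := by
    by_contra h0
    push Not at h0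
    exact P.rep_nonzero (funext h0)
  refine ⟨P.rep k, (P.rep k)⁻¹ • P.rep, hk, ?_, ?_⟩
  · rw [smul_smul, mul_inv_cancel₀ hk, one_smul]
  · rw [Phi_iter'] at he
    have h1 : Projectivization.mk E (frv F e P.rep) (frv_ne F e P.rep_nonzero) = Projectivization.mk E P.rep P.rep_nonzero :=
      he.trans P.mk_rep.symm
    rw [Projectivization.mk_eq_mk_iff'] at h1
    obtain ⟨a, ha⟩ := h1
    have h2 : a * P.rep k = P.rep k ^ (Fintype.card F ^ e) := congrFun ha k
    rw [frv_smul, ← ha, smul_smul]
    congr 1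
    rw [inv_pow, ← h2, mul_inv, mul_comm a⁻¹, mul_assoc, inv_mul_cancel₀, mul_one]
    rintro rfl
    rw [zero_mul] at h2
    exact pow_ne_zero _ hk h2.symm

lemma card_range_le (P : ℙ E (Fin (n + 1) → E)) (d : ℕ) :
    Module.finrank F (LinearMap.range (evP (F := F) P d)) ≤ dg F P := by
  classical
  obtain ⟨c, y, hc, hy, hfix⟩ := exists_fixed (F := F) P (dg F P) (Phi_dg F P)
  have hq : 1 < Fintype.card F ^ dg F P := Nat.one_lt_pow (dg_pos F P).ne' Fintype.one_lt_card
  have h1 : Nat.card (LinearMap.range (evP (F := F) P d)) ≤ Fintype.card F ^ dg F P := by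
    refine le_trans ?_ (card_roots_le (E := E) _ hq)
    refine Nat.card_le_card_of_injective (fun v => ⟨(c ^ d)⁻¹ * v.1, ?_⟩) ?_
    · obtain ⟨f, hf⟩ := v.2
      rw [← hf, evP_apply, hy, aeval_smul' F f.2, ← mul_assoc, inv_mul_cancel₀ (pow_ne_zero _ hc), one_mul, ← aeval_frv, hfix]
    · intro v w h
      have h2 := congrArg Subtype.val h
      simp only at h2
      exact Subtype.ext (mul_left_cancel₀ (inv_ne_zero (pow_ne_zero _ hc)) h2)
  rw [Module.natCard_eq_pow_finrank (K := F), Nat.card_eq_fintype_card] at h1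
  exact (Nat.pow_le_pow_iff_right Fintype.one_lt_card).1 h1

lemma rank_one (P : ℙ E (Fin (n + 1) → E)) (d : ℕ) (hd : dg F P ≤ d + 1) :
    Module.finrank F (LinearMap.range (evP (F := F) P d)) = dg F P := by
  refine le_antisymm (card_range_le P d) ?_
  have h1 := card_le_rank (F := F) (orb F P) d (by rwa [card_orb])
  rw [card_orb] at h1
  refine h1.trans ?_
  have h2 := LinearMap.finrank_range_add_finrank_ker (evP (F := F) P d)
  have h3 := LinearMap.finrank_range_add_finrank_ker (evS (F := F) (orb F P) d)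
  have h4 : Module.finrank F (LinearMap.ker (evP (F := F) P d)) ≤ Module.finrank F (LinearMap.ker (evS (F := F) (orb F P) d)) := by
    refine Submodule.finrank_mono fun f hf => ?_
    rw [LinearMap.mem_ker, evP_apply] at hf
    rw [LinearMap.mem_ker, evS_apply]
    funext R
    exact zero_conj f.2 P hf R.1 R.2
  omega

lemma rank_two (P P' : ℙ E (Fin (n + 1) → E)) (h : P' ∉ orb F P) (d : ℕ) (hd : dg F P + dg F P' ≤ d + 1) :
    Module.finrank F (LinearMap.range ((evP (F := F) P d).prod (evP P' d))) = dg F P + dg F P' := by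
  classical
  refine le_antisymm ?_ ?_
  · have h1 : Nat.card (LinearMap.range ((evP (F := F) P d).prod (evP P' d))) ≤
        Nat.card (LinearMap.range (evP (F := F) P d) × LinearMap.range (evP (F := F) P' d)) := by
      refine Nat.card_le_card_of_injective (fun v => (⟨v.1.1, ?_⟩, ⟨v.1.2, ?_⟩)) ?_
      · obtain ⟨f, hf⟩ := v.2
        exact ⟨f, congrArg Prod.fst hf⟩
      · obtain ⟨f, hf⟩ := v.2
        exact ⟨f, congrArg Prod.snd hf⟩
      · intro v w h
        have h2 := congrArg (fun z => (z.1.1, z.2.1)) h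
        exact Subtype.ext h2
    rw [Nat.card_prod, Module.natCard_eq_pow_finrank (K := F), Module.natCard_eq_pow_finrank (K := F) (V := LinearMap.range (evP (F := F) P d)),
      Module.natCard_eq_pow_finrank (K := F) (V := LinearMap.range (evP (F := F) P' d)), Nat.card_eq_fintype_card, ← pow_add,
      Nat.pow_le_pow_iff_right Fintype.one_lt_card] at h1
    exact h1.trans (Nat.add_le_add (card_range_le P d) (card_range_le P' d))
  · have hS : (orb F P ∪ orb F P').card = dg F P + dg F P' := by
      rw [card_union_of_disjoint (orb_disjoint F h), card_orb, card_orb]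
    have h1 := card_le_rank (F := F) (orb F P ∪ orb F P') d (by rwa [hS])
    rw [hS] at h1
    refine h1.trans ?_
    have h2 := LinearMap.finrank_range_add_finrank_ker ((evP (F := F) P d).prod (evP P' d))
    have h3 := LinearMap.finrank_range_add_finrank_ker (evS (F := F) (orb F P ∪ orb F P') d)
    have h4 : Module.finrank F (LinearMap.ker ((evP (F := F) P d).prod (evP P' d))) ≤
        Module.finrank F (LinearMap.ker (evS (F := F) (orb F P ∪ orb F P') d)) := by
      refine Submodule.finrank_mono fun f hf => ?_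
      rw [LinearMap.ker_prod, Submodule.mem_inf, LinearMap.mem_ker, LinearMap.mem_ker, evP_apply, evP_apply] at hf
      rw [LinearMap.mem_ker, evS_apply]
      funext R
      rcases mem_union.1 R.2 with hR | hR
      · exact zero_conj f.2 P hf.1 R.1 hR
      · exact zero_conj f.2 P' hf.2 R.1 hR
    omega

end Q282QF
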